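import Mathlib

open NumberField

namespace Pool.Agent.TH877.LC

variable {F : Type} [Field F] [NumberField F]

theorem ne_bot_of_mem {p : ℕ} (hp : p.Prime) {P : Ideal (𝓞 F)} (hpP : (p : 𝓞 F) ∈ P) : P ≠ ⊥ := by
  rintro rfl
  rw [Ideal.mem_bot] at hpP
  exact hp.ne_zero (by exact_mod_cast hpP)

theorem card_quot_ge {p : ℕ} (hp : p.Prime) {P : Ideal (𝓞 F)} (hP : P.IsPrime)
    (hpP : (p : 𝓞 F) ∈ P) : p ≤ Nat.card (𝓞 F ⧸ P) := by
  have hfin : Finite (𝓞 F ⧸ P) := Ideal.finiteQuotientOfFreeOfNeBot P (ne_bot_of_mem hp hpP)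
  have : Fact p.Prime := ⟨hp⟩
  have h1 : (1 : 𝓞 F ⧸ P) ≠ 0 := by
    have := Ideal.Quotient.nontrivial_iff.2 hP.ne_top
    exact one_ne_zero
  have h2 : p • (1 : 𝓞 F ⧸ P) = 0 := by
    rw [nsmul_eq_mul, mul_one]
    have : (Ideal.Quotient.mk P) (p : 𝓞 F) = 0 := Ideal.Quotient.eq_zero_iff_mem.2 hpP
    simpa using this
  have h3 := addOrderOf_eq_prime h2 h1
  have h4 := addOrderOf_dvd_natCard (1 : 𝓞 F ⧸ P)
  rw [h3] at h4
  exact Nat.le_of_dvd Nat.card_pos h4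

theorem card_quot_ge_root {l : ℕ} (hl : l.Prime) {ζ : 𝓞 F} (hζ : IsPrimitiveRoot ζ l)
    {p : ℕ} (hp : p.Prime) {P : Ideal (𝓞 F)} (hP : P.IsPrime) (hpP : (p : 𝓞 F) ∈ P) :
    l ≤ Nat.card (𝓞 F ⧸ P) := by
  by_cases hpl : p = l
  · rw [← hpl]; exact card_quot_ge hp hP hpP
  have hfin : Finite (𝓞 F ⧸ P) := Ideal.finiteQuotientOfFreeOfNeBot P (ne_bot_of_mem hp hpP)
  have : Fact l.Prime := ⟨hl⟩
  set z : 𝓞 F ⧸ P := Ideal.Quotient.mk P ζ with hz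
  have hz1 : z ^ l = 1 := by rw [hz, ← map_pow, hζ.pow_eq_one, map_one]
  have hz2 : z ≠ 1 := by
    intro h
    have h1 := congrArg (Ideal.Quotient.mk P) (hζ.geom_sum_eq_zero hl.one_lt)
    rw [map_sum, map_zero] at h1
    simp only [map_pow] at h1
    rw [← hz, h] at h1
    simp only [one_pow, Finset.sum_const, Finset.card_range, nsmul_eq_mul, mul_one] at h1
    have h2 : (l : 𝓞 F) ∈ P := by
      rw [← Ideal.Quotient.eq_zero_iff_mem]
      simpa using h1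
    have hco : IsCoprime (p : ℤ) (l : ℤ) := by
      rw [Nat.isCoprime_iff_coprime]
      exact (Nat.coprime_primes hp hl).2 hpl
    obtain ⟨u, v, huv⟩ := hco
    apply hP.ne_top
    rw [Ideal.eq_top_iff_one]
    have e : (1 : 𝓞 F) = (u : 𝓞 F) * (p : 𝓞 F) + (v : 𝓞 F) * (l : 𝓞 F) := by
      have := congrArg (Int.cast : ℤ → 𝓞 F) huv
      push_cast at this
      exact this.symm
    rw [e]
    exact P.add_mem (P.mul_mem_left _ hpP) (P.mul_mem_left _ h2)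
  have hord : orderOf z = l := orderOf_eq_prime hz1 hz2
  have hinj : Function.Injective (fun i : Fin l => z ^ (i : ℕ)) := by
    intro i j hij
    apply Fin.ext
    refine pow_injOn_Iio_orderOf (x := z) ?_ ?_ hij
    · rw [Set.mem_Iio, hord]; exact i.2
    · rw [Set.mem_Iio, hord]; exact j.2
  have := Nat.card_le_card_of_injective _ hinj
  simpa using this

theorem exp_ge {l : ℕ} {y : 𝓞 F} {p c : ℕ} (hy : y ^ l = (p : 𝓞 F) * (c : 𝓞 F))
    (hpc : Nat.Coprime p c) {P : Ideal (𝓞 F)} (hP : P.IsPrime) {e : ℕ} (he : 1 ≤ e)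
    (h1 : (p : 𝓞 F) ∈ P ^ e) (h2 : (p : 𝓞 F) ∉ P ^ (e + 1)) : l ≤ e := by
  by_contra hlt
  push Not at hlt
  apply h2
  have hpP : (p : 𝓞 F) ∈ P := by
    have := Ideal.pow_le_pow_right (I := P) he h1
    rwa [pow_one] at this
  have hyP : y ∈ P := by
    refine hP.mem_of_pow_mem l ?_
    rw [hy]
    exact P.mul_mem_right _ hpP
  have h3 : (p : 𝓞 F) * (c : 𝓞 F) ∈ P ^ (e + 1) := by
    rw [← hy]
    exact Ideal.pow_le_pow_right (I := P) (by omega) (Ideal.pow_mem_pow hyP l)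
  have h4 : (p : 𝓞 F) * (p : 𝓞 F) ∈ P ^ (e + 1) := by
    have : (p : 𝓞 F) * (p : 𝓞 F) ∈ P ^ (e + e) := by
      rw [pow_add]; exact Ideal.mul_mem_mul h1 h1
    exact Ideal.pow_le_pow_right (I := P) (by omega) this
  have hco : IsCoprime (p : ℤ) (c : ℤ) := Nat.isCoprime_iff_coprime.2 hpc
  obtain ⟨u, v, huv⟩ := hco
  have e1 : (1 : 𝓞 F) = (u : 𝓞 F) * (p : 𝓞 F) + (v : 𝓞 F) * (c : 𝓞 F) := by
    have := congrArg (Int.cast : ℤ → 𝓞 F) huv
    push_cast at this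
    exact this.symm
  have e2 : (p : 𝓞 F) = (u : 𝓞 F) * ((p : 𝓞 F) * (p : 𝓞 F)) +
      (v : 𝓞 F) * ((p : 𝓞 F) * (c : 𝓞 F)) := by
    calc (p : 𝓞 F) = (p : 𝓞 F) * 1 := by rw [mul_one]
      _ = _ := by rw [e1]; ring
  rw [e2]
  exact (P ^ (e + 1)).add_mem (Ideal.mul_mem_left _ _ h4) (Ideal.mul_mem_left _ _ h3)

end Pool.Agent.TH877.LC
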