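import Pool.Agent.TH965.St.Main
import Pool.Agent.TH877.LC.Loc

open NumberField Pool.Agent.TH965.St

namespace Pool.Agent.TH877.LC

variable {p : ℕ} {a : ℕ}

theorem no_root (hp : p.Prime) (ha0 : a ≠ 0) (ha : padicValNat 2 a = 1) (b : ℚ) :
    b ^ p ≠ (a : ℚ) := by
  intro h
  have h1 := congrArg (padicValRat 2) h
  have hb : b ≠ 0 := by
    rintro rfl
    rw [zero_pow hp.ne_zero] at h
    exact ha0 (by exact_mod_cast h.symm)
  have : Fact (Nat.Prime 2) := ⟨Nat.prime_two⟩
  rw [padicValRat.pow, padicValRat.of_nat, ha] at h1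
  have h3 : (p : ℤ) ∣ 1 := ⟨padicValRat 2 b, by rw [h1]; rfl⟩
  have h4 := Int.eq_one_of_dvd_one (by positivity) h3
  have := hp.one_lt
  omega

theorem minpoly_a (hp : p.Prime) (ha : ∀ b : ℚ, b ^ p ≠ (a : ℚ)) {A : Type} [Field A]
    [Algebra ℚ A] {y : A} (hy : y ^ p = (a : A)) :
    minpoly ℚ y = Polynomial.X ^ p - Polynomial.C (a : ℚ) := by
  symm
  apply minpoly.eq_of_irreducible_of_monic
  · exact X_pow_sub_C_irreducible_of_prime hp ha
  · simp [hy]
  · exact Polynomial.monic_X_pow_sub_C _ hp.ne_zero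

theorem no_root_K (hp : p.Prime) (ha : ∀ b : ℚ, b ^ p ≠ (a : ℚ)) (K : IntermediateField ℚ Qb)
    [hK : NumberField K] (h : Module.finrank ℚ K < p) (b : K) : b ^ p ≠ (a : K) := by
  intro hb
  have : FiniteDimensional ℚ K := (nf_iff K).1 hK
  have h1 := minpoly.natDegree_le (A := ℚ) b
  rw [minpoly_a hp ha hb, Polynomial.natDegree_X_pow_sub_C] at h1
  omega

theorem trans_a [hp : Fact p.Prime] (ha : ∀ b : ℚ, b ^ p ≠ (a : ℚ)) {ζ : Qb}
    (hζ : IsPrimitiveRoot ζ p) (K : IntermediateField ℚ Qb) [hK : NumberField K]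
    (h : Module.finrank ℚ K < p) {y : Qb} (hy : y ^ p = (a : Qb)) (i : ZMod p) :
    ∃ g ∈ K.fixingSubgroup, g y = Z ζ i * y := by
  have hirr : Irreducible (Polynomial.X ^ p - Polynomial.C (a : K)) :=
    X_pow_sub_C_irreducible_of_prime hp.1 (no_root_K hp.1 ha K h)
  have hm : ∀ x : Qb, x ^ p = (a : Qb) →
      minpoly K x = Polynomial.X ^ p - Polynomial.C (a : K) := by
    intro x hx
    symm
    apply minpoly.eq_of_irreducible_of_monic hirr
    · rw [map_sub, map_pow, Polynomial.aeval_X, Polynomial.aeval_C, hx, map_natCast, sub_self]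
    · exact Polynomial.monic_X_pow_sub_C _ hp.1.ne_zero
  have hx : (Z ζ i * y) ^ p = (a : Qb) := by
    rw [mul_pow, hy, Z_pow hζ, CharP.cast_eq_zero, mul_zero, Z_zero, one_mul]
  have h1 : minpoly K (Z ζ i * y) = minpoly K y := by rw [hm _ hx, hm _ hy]
  obtain ⟨σ, hσ⟩ := (Normal.minpoly_eq_iff_mem_orbit Qb).1 h1
  refine ⟨((IntermediateField.fixingSubgroupEquiv K).symm σ : K.fixingSubgroup),
    ((IntermediateField.fixingSubgroupEquiv K).symm σ).2, ?_⟩
  exact hσ

theorem finrank_y (hp : p.Prime) (ha : ∀ b : ℚ, b ^ p ≠ (a : ℚ)) {y : Qb}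
    (hy : y ^ p = (a : Qb)) : Module.finrank ℚ (IntermediateField.adjoin ℚ {y}) = p := by
  have hint : IsIntegral ℚ y := (Algebra.IsAlgebraic.isAlgebraic (R := ℚ) y).isIntegral
  rw [IntermediateField.adjoin.finrank hint, minpoly_a hp ha hy,
    Polynomial.natDegree_X_pow_sub_C]

theorem finrank_zeta (hp : p.Prime) {ζ : Qb} (hζ : IsPrimitiveRoot ζ p) :
    Module.finrank ℚ (IntermediateField.adjoin ℚ {ζ}) = p - 1 := by
  have hint : IsIntegral ℚ ζ := (Algebra.IsAlgebraic.isAlgebraic (R := ℚ) ζ).isIntegral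
  rw [IntermediateField.adjoin.finrank hint,
      ← Polynomial.cyclotomic_eq_minpoly_rat hζ hp.pos, Polynomial.natDegree_cyclotomic,
      Nat.totient_prime hp]

/-- the number of real places does not grow when a root of odd order is adjoined -/
theorem real_places_le (hodd : Odd p) (K : IntermediateField ℚ Qb) [hK : NumberField K] {y : Qb}
    (hy : y ^ p = (a : Qb))
    [hF : NumberField (K ⊔ IntermediateField.adjoin ℚ {y} : IntermediateField ℚ Qb)] :
    InfinitePlace.nrRealPlaces (K ⊔ IntermediateField.adjoin ℚ {y} : IntermediateField ℚ Qb)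
      ≤ Module.finrank ℚ K := by
  classical
  rw [← InfinitePlace.card_real_embeddings]
  have hcard : Fintype.card (K →+* ℂ) = Module.finrank ℚ K := Embeddings.card K ℂ
  rw [← hcard]
  set F : IntermediateField ℚ Qb := K ⊔ IntermediateField.adjoin ℚ {y} with hFdef
  let i : K →+* F := (IntermediateField.inclusion (le_sup_left : K ≤ F)).toRingHom
  refine Fintype.card_le_of_injective (fun φ => φ.1.comp i) ?_
  rintro ⟨φ, hφ⟩ ⟨φ', hφ'⟩ hEq
  apply Subtype.ext
  simp only at hEq ⊢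
  have hyF : y ∈ F := (le_sup_right : IntermediateField.adjoin ℚ {y} ≤ F)
    (IntermediateField.mem_adjoin_simple_self ℚ y)
  let y' : F := ⟨y, hyF⟩
  have hy' : y' ^ p = (a : F) := Subtype.ext (by simpa using hy)
  have hre : ∀ χ : F →+* ℂ, ComplexEmbedding.IsReal χ → ∃ r : ℝ, χ y' = r ∧ r ^ p = a := by
    intro χ hχ
    have e : χ y' = ((χ y').re : ℂ) :=
      (Complex.conj_eq_iff_re.1 (RingHom.congr_fun (ComplexEmbedding.isReal_iff.1 hχ) y')).symm
    refine ⟨(χ y').re, e, ?_⟩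
    have e2 : (χ y') ^ p = (a : ℂ) := by rw [← map_pow, hy', map_natCast]
    rw [e] at e2
    exact_mod_cast e2
  obtain ⟨r, hr, hr2⟩ := hre φ hφ
  obtain ⟨r', hr', hr2'⟩ := hre φ' hφ'
  have hrr : r = r' := hodd.strictMono_pow.injective (hr2.trans hr2'.symm)
  have hyy : φ y' = φ' y' := by rw [hr, hr', hrr]
  -- the subfield where both agree
  let S : Subfield F := RingHom.eqLocusField φ φ'
  let S' : Subfield Qb := S.map (algebraMap F Qb)
  let E : IntermediateField ℚ Qb := S'.toIntermediateField (fun x => by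
    rw [eq_ratCast]
    exact SubfieldClass.ratCast_mem S' x)
  have hall : F ≤ E := by
    refine sup_le ?_ ?_
    · intro x hx
      refine ⟨⟨x, (le_sup_left : K ≤ F) hx⟩, ?_, rfl⟩
      exact RingHom.congr_fun hEq ⟨x, hx⟩
    · rw [IntermediateField.adjoin_simple_le_iff]
      exact ⟨y', hyy, rfl⟩
  ext x
  obtain ⟨x', hx', hxx⟩ := hall x.2
  have : x' = x := Subtype.ext hxx
  rw [← this]
  exact hx'

end Pool.Agent.TH877.LC
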