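import Pool.Agent.TH965.St.Quot
import Pool.Agent.TH877.LC.Fld

open NumberField Pool.Agent.TH965.St

namespace Pool.Agent.TH877.LC

/-- every prime ideal of `F` has large norm or large ramification index -/
def LargeC (m : ℕ) (F : IntermediateField ℚ Qb) : Prop :=
  ∀ p : ℕ, p.Prime → ∀ P : Ideal (𝓞 F), P.IsPrime → ∀ e : ℕ, 1 ≤ e → (p : 𝓞 F) ∈ P ^ e →
    (p : 𝓞 F) ∉ P ^ (e + 1) →
      Module.finrank ℚ F ^ m ≤ Nat.card (𝓞 F ⧸ P) ^ (m + 1) ∨
      Module.finrank ℚ F ^ m ≤ e ^ (m + 1)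

theorem largeC_of {m : ℕ} {F : IntermediateField ℚ Qb} {l n : ℕ}
    (h1 : Module.finrank ℚ F ≤ n * l) (h2 : n ^ m ≤ l)
    (h : ∀ p : ℕ, p.Prime → ∀ P : Ideal (𝓞 F), P.IsPrime → ∀ e : ℕ, 1 ≤ e →
      (p : 𝓞 F) ∈ P ^ e → (p : 𝓞 F) ∉ P ^ (e + 1) → l ≤ Nat.card (𝓞 F ⧸ P) ∨ l ≤ e) :
    LargeC m F := by
  intro p hp P hP e he h3 h4
  have key : ∀ x : ℕ, l ≤ x → Module.finrank ℚ F ^ m ≤ x ^ (m + 1) := by
    intro x hx
    calc Module.finrank ℚ F ^ m ≤ (n * l) ^ m := Nat.pow_le_pow_left h1 m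
      _ = n ^ m * l ^ m := mul_pow _ _ _
      _ ≤ l * l ^ m := Nat.mul_le_mul_right _ h2
      _ = l ^ (m + 1) := by rw [pow_succ, mul_comm]
      _ ≤ x ^ (m + 1) := Nat.pow_le_pow_left hx _
  exact (h p hp P hP e he h3 h4).imp (key _) (key _)

theorem primorial_eq {q n : ℕ} (hq : q.Prime) (hqn : q ≤ n) :
    ∃ c : ℕ, primorial n = q * c ∧ Nat.Coprime q c := by
  classical
  have hmem : q ∈ (Finset.range (n + 1)).filter Nat.Prime := by
    rw [Finset.mem_filter, Finset.mem_range]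
    exact ⟨by omega, hq⟩
  refine ⟨∏ r ∈ ((Finset.range (n + 1)).filter Nat.Prime).erase q, r, ?_, ?_⟩
  · exact (Finset.mul_prod_erase _ (fun r => r) hmem).symm
  · refine Nat.Coprime.prod_right fun r hr => ?_
    rw [Finset.mem_erase, Finset.mem_filter] at hr
    exact (Nat.coprime_primes hq hr.2.2).2 (Ne.symm hr.1)

theorem padic_primorial {n : ℕ} (hn : 2 ≤ n) : padicValNat 2 (primorial n) = 1 := by
  obtain ⟨c, hc, hco⟩ := primorial_eq Nat.prime_two hn
  have : Fact (Nat.Prime 2) := ⟨Nat.prime_two⟩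
  have h0 : c ≠ 0 := by
    rintro rfl
    simp at hco
  rw [hc, padicValNat.mul (by norm_num) h0, padicValNat.self (by norm_num),
    padicValNat.eq_zero_of_not_dvd]
  intro h
  have := Nat.Coprime.eq_one_of_dvd hco h
  norm_num at this

variable {K : IntermediateField ℚ Qb}

/-- the step -/
theorem raise {M : Type} [CommGroup M] (A : Family M) (N m : ℕ) (hK : NumberField K)
    (ψ : LinChar K)
    (H : ∀ (K' : IntermediateField ℚ Qb) [NumberField K'],
      N ≤ InfinitePlace.nrComplexPlaces K' →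
      InfinitePlace.nrRealPlaces K' ^ m ≤ Module.finrank ℚ K' → LargeC m K' →
      ∀ φ : LinChar K', A.D K' φ.fn = 1) :
    A.D K ψ.fn = 1 := by
  classical
  set n : ℕ := Module.finrank ℚ K with hn
  obtain ⟨p, hp, hpp⟩ := Nat.exists_infinite_primes (n ^ m + n + 2 * N + 3)
  have hFp : Fact p.Prime := ⟨hpp⟩
  have hfK : FiniteDimensional ℚ K := (nf_iff K).1 hK
  have hn0 : 0 < n := Module.finrank_pos
  have hpow : n ^ m ≤ p := by omega
  have hnp : n < p := by omega
  have hp3 : 3 ≤ p := by omega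
  have hnp2 : p ≤ n * p := Nat.le_mul_of_pos_left _ hn0
  set a : ℕ := primorial (n * p) with hadef
  have ha0 : a ≠ 0 := (primorial_pos _).ne'
  have ha : ∀ b : ℚ, b ^ p ≠ (a : ℚ) :=
    no_root hpp ha0 (padic_primorial (by omega))
  obtain ⟨ζ, hζ⟩ : ∃ ζ : Qb, IsPrimitiveRoot ζ p := by
    have : NeZero (p : Qb) := ⟨by exact_mod_cast hpp.ne_zero⟩
    exact HasEnoughRootsOfUnity.exists_primitiveRoot Qb p
  obtain ⟨y, hy⟩ : ∃ y : Qb, y ^ p = (a : Qb) := IsAlgClosed.exists_pow_nat_eq (a : Qb) hpp.pos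
  have hy0 : y ≠ 0 := by
    rintro rfl
    rw [zero_pow hpp.ne_zero] at hy
    exact ha0 (by exact_mod_cast hy.symm)
  obtain ⟨τ⟩ : Nonempty (Qb →+* ℂ) := ⟨(IsAlgClosed.lift (R := ℚ) (S := Qb) (M := ℂ)).toRingHom⟩
  have hFy : NumberField (IntermediateField.adjoin ℚ {y}) := nf_adjoin y
  have hFz : NumberField (IntermediateField.adjoin ℚ {ζ}) := nf_adjoin ζ
  have hK1 : NumberField (K ⊔ IntermediateField.adjoin ℚ {y} : IntermediateField ℚ Qb) :=
    nf_sup hK hFy
  have hK2 : NumberField (K ⊔ IntermediateField.adjoin ℚ {ζ} : IntermediateField ℚ Qb) :=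
    nf_sup hK hFz
  have hyp : ∀ g : GQ, g (y ^ p) = y ^ p := by
    intro g
    rw [hy, map_natCast]
  have key := A.of_identity hK hK1 hK2 le_sup_left le_sup_left _
    (kummer_identity (K := K) (K1 := K ⊔ IntermediateField.adjoin ℚ {y})
      (K2 := K ⊔ IntermediateField.adjoin ℚ {ζ}) hζ τ hy0 le_sup_left le_sup_left
      (fun g _ => hyp g) (fun g _ => hyp g)
      (fun g hg => ((mem_fix_sup K ζ g).1 hg).2)
      (fun g hg => ⟨fun h => ((mem_fix_sup K ζ g).1 h).2, fun h => (mem_fix_sup K ζ g).2 ⟨hg, h⟩⟩)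
      (fun g hg => ⟨fun h => ((mem_fix_sup K y g).1 h).2, fun h => (mem_fix_sup K y g).2 ⟨hg, h⟩⟩)
      (fun i => trans_a ha hζ K (by omega) hy i)) ψ
  have hodd : Odd p := hpp.odd_of_ne_two (by omega)
  -- the field `K1`
  have d1 : Module.finrank ℚ (K ⊔ IntermediateField.adjoin ℚ {y} : IntermediateField ℚ Qb)
      ≤ n * p := by
    have := IntermediateField.finrank_sup_le K (IntermediateField.adjoin ℚ {y})
    rwa [finrank_y hpp ha hy] at this
  have f1 : FiniteDimensional ℚ (K ⊔ IntermediateField.adjoin ℚ {y} : IntermediateField ℚ Qb) :=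
    (nf_iff _).1 hK1
  have f2 : FiniteDimensional ℚ (K ⊔ IntermediateField.adjoin ℚ {ζ} : IntermediateField ℚ Qb) :=
    (nf_iff _).1 hK2
  have d1' : p ≤ Module.finrank ℚ (K ⊔ IntermediateField.adjoin ℚ {y} :
      IntermediateField ℚ Qb) := by
    have := IntermediateField.finrank_le_of_le_right
      (le_sup_right : IntermediateField.adjoin ℚ {y} ≤ K ⊔ IntermediateField.adjoin ℚ {y})
    rwa [finrank_y hpp ha hy] at this
  have s1 := InfinitePlace.card_add_two_mul_card_eq_rank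
    (K ⊔ IntermediateField.adjoin ℚ {y} : IntermediateField ℚ Qb)
  have t1 := real_places_le hodd K hy
  have r1 : N ≤ InfinitePlace.nrComplexPlaces
      (K ⊔ IntermediateField.adjoin ℚ {y} : IntermediateField ℚ Qb) := by
    change InfinitePlace.nrRealPlaces _ + 2 * InfinitePlace.nrComplexPlaces _ = _ at s1
    omega
  have u1 : InfinitePlace.nrRealPlaces
      (K ⊔ IntermediateField.adjoin ℚ {y} : IntermediateField ℚ Qb) ^ m ≤
      Module.finrank ℚ (K ⊔ IntermediateField.adjoin ℚ {y} : IntermediateField ℚ Qb) :=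
    (Nat.pow_le_pow_left t1 m).trans (hpow.trans d1')
  have L1 : LargeC m (K ⊔ IntermediateField.adjoin ℚ {y} : IntermediateField ℚ Qb) := by
    refine largeC_of d1 hpow fun q hq P hP e he h1 h2 => ?_
    have hqP : (q : 𝓞 (K ⊔ IntermediateField.adjoin ℚ {y} : IntermediateField ℚ Qb)) ∈ P := by
      have := Ideal.pow_le_pow_right (I := P) he h1
      rwa [pow_one] at this
    have hc := card_quot_ge hq hP hqP
    by_cases hqn : q ≤ n * p
    · obtain ⟨c, hc1, hc2⟩ := primorial_eq hq hqn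
      have hyF : y ∈ (K ⊔ IntermediateField.adjoin ℚ {y} : IntermediateField ℚ Qb) :=
        (le_sup_right : IntermediateField.adjoin ℚ {y} ≤ _)
          (IntermediateField.mem_adjoin_simple_self ℚ y)
      have hyp' : (⟨y, hyF⟩ : (K ⊔ IntermediateField.adjoin ℚ {y} : IntermediateField ℚ Qb)) ^ p
          = (a : (K ⊔ IntermediateField.adjoin ℚ {y} : IntermediateField ℚ Qb)) :=
        Subtype.ext (by simpa using hy)
      let y1 : 𝓞 (K ⊔ IntermediateField.adjoin ℚ {y} : IntermediateField ℚ Qb) :=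
        ⟨⟨y, hyF⟩, IsIntegral.of_pow hpp.pos (by
          rw [hyp']
          exact isIntegral_algebraMap (R := ℤ) (x := (a : ℤ)) |> fun h => by simpa using h)⟩
      have hy1 : y1 ^ p = (q : 𝓞 (K ⊔ IntermediateField.adjoin ℚ {y} :
          IntermediateField ℚ Qb)) * (c : 𝓞 (K ⊔ IntermediateField.adjoin ℚ {y} :
          IntermediateField ℚ Qb)) := by
        apply RingOfIntegers.coe_injective
        rw [map_pow, map_mul, map_natCast, map_natCast]
        show (⟨y, hyF⟩ : (K ⊔ IntermediateField.adjoin ℚ {y} : IntermediateField ℚ Qb)) ^ p = _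
        rw [hyp', hadef, hc1, Nat.cast_mul]
      exact Or.inr (exp_ge hy1 hc2 hP he h1 h2)
    · push Not at hqn
      exact Or.inl (by omega)
  -- the field `K2`
  have d2 : Module.finrank ℚ (K ⊔ IntermediateField.adjoin ℚ {ζ} : IntermediateField ℚ Qb)
      ≤ n * p := by
    have := IntermediateField.finrank_sup_le K (IntermediateField.adjoin ℚ {ζ})
    rw [finrank_zeta hpp hζ] at this
    exact this.trans (Nat.mul_le_mul_left _ (by omega))
  have d2' : p - 1 ≤ Module.finrank ℚ (K ⊔ IntermediateField.adjoin ℚ {ζ} :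
      IntermediateField ℚ Qb) := by
    have := IntermediateField.finrank_le_of_le_right
      (le_sup_right : IntermediateField.adjoin ℚ {ζ} ≤ K ⊔ IntermediateField.adjoin ℚ {ζ})
    rwa [finrank_zeta hpp hζ] at this
  have hzF : ζ ∈ (K ⊔ IntermediateField.adjoin ℚ {ζ} : IntermediateField ℚ Qb) :=
    (le_sup_right : IntermediateField.adjoin ℚ {ζ} ≤ _)
      (IntermediateField.mem_adjoin_simple_self ℚ ζ)
  have hζ' : IsPrimitiveRoot
      (⟨ζ, hzF⟩ : (K ⊔ IntermediateField.adjoin ℚ {ζ} : IntermediateField ℚ Qb)) p := by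
    have : IsPrimitiveRoot ((algebraMap
      (K ⊔ IntermediateField.adjoin ℚ {ζ} : IntermediateField ℚ Qb) Qb) ⟨ζ, hzF⟩) p := hζ
    exact IsPrimitiveRoot.of_map_of_injective this
      (algebraMap (K ⊔ IntermediateField.adjoin ℚ {ζ} : IntermediateField ℚ Qb) Qb).injective
  have s2 := InfinitePlace.card_add_two_mul_card_eq_rank
    (K ⊔ IntermediateField.adjoin ℚ {ζ} : IntermediateField ℚ Qb)
  have t2 := InfinitePlace.IsPrimitiveRoot.nrRealPlaces_eq_zero_of_two_lt (by omega) hζ'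
  have r2 : N ≤ InfinitePlace.nrComplexPlaces
      (K ⊔ IntermediateField.adjoin ℚ {ζ} : IntermediateField ℚ Qb) := by
    change InfinitePlace.nrRealPlaces _ + 2 * InfinitePlace.nrComplexPlaces _ = _ at s2
    omega
  have u2 : InfinitePlace.nrRealPlaces
      (K ⊔ IntermediateField.adjoin ℚ {ζ} : IntermediateField ℚ Qb) ^ m ≤
      Module.finrank ℚ (K ⊔ IntermediateField.adjoin ℚ {ζ} : IntermediateField ℚ Qb) := by
    rw [t2]
    have : (0 : ℕ) ^ m ≤ 1 := (Nat.pow_le_pow_left (Nat.zero_le 1) m).trans (by rw [one_pow])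
    omega
  have L2 : LargeC m (K ⊔ IntermediateField.adjoin ℚ {ζ} : IntermediateField ℚ Qb) := by
    refine largeC_of d2 hpow fun q hq P hP e he h1 h2 => ?_
    have hqP : (q : 𝓞 (K ⊔ IntermediateField.adjoin ℚ {ζ} : IntermediateField ℚ Qb)) ∈ P := by
      have := Ideal.pow_le_pow_right (I := P) he h1
      rwa [pow_one] at this
    exact Or.inl (card_quot_ge_root hpp hζ'.toInteger_isPrimitiveRoot hq hP hqP)
  rw [H _ r1 u1 L1, Finset.prod_eq_one (fun a _ => H _ r2 u2 L2 _), mul_one] at key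
  exact key.symm

theorem main1 {M : Type} [CommGroup M] (A : Family M) (N m : ℕ) :
    (∀ K : IntermediateField ℚ Qb, NumberField K → ∀ f ∈ Virt K, A.D K f = 1) ↔
    (∀ (K : IntermediateField ℚ Qb) [NumberField K], N ≤ InfinitePlace.nrComplexPlaces K →
      InfinitePlace.nrRealPlaces K ^ m ≤ Module.finrank ℚ K → LargeC m K →
      ∀ ψ : LinChar K, A.D K ψ.fn = 1) := by
  constructor
  · intro H K hK _ _ _ ψ
    exact H K hK _ (fn_mem_virt hK ψ)
  · intro H
    exact A.all_virt 0 fun K hK _ ψ => raise A N m hK ψ H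

theorem main1_quot {M : Type} [CommGroup M] (T : Subgroup M) (A : Family M) (N m : ℕ) :
    (∀ K : IntermediateField ℚ Qb, NumberField K → ∀ f ∈ Virt K, A.D K f ∈ T) ↔
    (∀ (K : IntermediateField ℚ Qb) [NumberField K], N ≤ InfinitePlace.nrComplexPlaces K →
      InfinitePlace.nrRealPlaces K ^ m ≤ Module.finrank ℚ K → LargeC m K →
      ∀ ψ : LinChar K, A.D K ψ.fn ∈ T) := by
  have h := main1 (A.quot T) N m
  have e : ∀ (K : IntermediateField ℚ Qb) (f : GQ → ℂ), (A.quot T).D K f = 1 ↔ A.D K f ∈ T :=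
    fun K f => QuotientGroup.eq_one_iff _
  simp only [e] at h
  exact h

end Pool.Agent.TH877.LC
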