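import Pool.Agent.TH965.St.Transfer
import Pool.Agent.TH877.LC.Main

open NumberField

namespace Pool.Agent.TH965.Stk

/-- The degree of `K` over `ℚ`. -/
noncomputable def deg (K : SubQ) : ℕ := Module.finrank ℚ K.toIF

/-- The number of real places of `K`. -/
noncomputable def r1 (K : SubQ) : ℕ :=
  Nat.card {w : InfinitePlace K.toIF // w.IsReal}

/-- Every prime ideal `P ≠ 0` of the ring of integers of `K` has norm `N(P)` at least
`[K:ℚ]^(m/(m+1))` or ramification index `e` at least `[K:ℚ]^(m/(m+1))`. -/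
def PrimesLarge (m : ℕ) (K : SubQ) : Prop :=
  ∀ p : ℕ, p.Prime → ∀ P : Ideal (𝓞 K.toIF), P.IsPrime → ∀ e : ℕ, 1 ≤ e →
    (p : 𝓞 K.toIF) ∈ P ^ e → (p : 𝓞 K.toIF) ∉ P ^ (e + 1) →
      deg K ^ m ≤ Nat.card (𝓞 K.toIF ⧸ P) ^ (m + 1) ∨ deg K ^ m ≤ e ^ (m + 1)

theorem r1_old (K : SubQ) (hK : IsNF K) :
    r1 K = @InfinitePlace.nrRealPlaces K.toIF _ hK := by
  have : NumberField K.toIF := hK
  classical
  unfold r1
  rw [Nat.card_eq_fintype_card]

theorem mainLC {M : Type} [CommGroup M] (T : Subgroup M) (A : Family M) (N m : ℕ) :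
    (∀ K, IsNF K → ∀ f ∈ Virt K, A.D K f ∈ T) ↔
    (∀ K, IsNF K → N ≤ r2 K → r1 K ^ m ≤ deg K → PrimesLarge m K →
      ∀ ψ : LinChar K, A.D K ψ.fn ∈ T) := by
  have h := Pool.Agent.TH877.LC.main1_quot T A.old N m
  constructor
  · intro H K hK hN h1 h2 ψ
    rw [r2_old K hK] at hN
    rw [r1_old K hK] at h1
    have h' := h.1 (by
      intro K hK f hf
      have hf' : f ∈ Virt K := by rw [← virt_old K]; exact hf
      exact H K hK f hf')
    exact @h' K.toIF hK hN h1 h2 ψ.old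
  · intro H K hK f hf
    refine (h.2 ?_) K hK f (by rw [← virt_old K] at hf; exact hf)
    intro K hK hN h1 h2 ψ
    exact H K hK (by rw [r2_old K hK]; exact hN) (by rw [r1_old K hK]; exact h1) h2
      (LinChar.new (K := K) ψ)

end Pool.Agent.TH965.Stk
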